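import Pool.Agent.Helper14.T3.StL

/-!
# Project T3, module Farp: connectedness on coprime pairs
-/

set_option autoImplicit false

namespace Pool.Agent.Helper36.T3

open Pool.Agent.Helper14.T3

section

variable {K : ℤ → ℤ → ZMod 3}

private def Hyp (K : ℤ → ℤ → ZMod 3) : Prop :=
  ∀ a b c d : ℤ, a * d - 9 * b * c = 1 → K a (3 * c) = K (3 * b) d ∧
    K a (3 * c) = K (a + 3 * b) (3 * c + d) ∧ K a (3 * c) = K (3 * b - a) (d - 3 * c)

/-- edges whose first vertex is of type infinity -/
private lemma edge_one (h : Hyp K) {p q p' q' : ℤ} (hd : p * q' - q * p' = 1) (hq : 3 ∣ q) :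
    K p q = K p' q' := by
  obtain ⟨c, rfl⟩ := hq
  have hp : ¬ (3 : ℤ) ∣ p := by
    rintro ⟨k, rfl⟩
    have : 3 * (k * q' - c * p') = 1 := by linarith
    omega
  have h3 : (3 : ℤ) ∣ p' ∨ (3 : ℤ) ∣ p' - p ∨ (3 : ℤ) ∣ p' + p := by
    have a1 : p % 3 = 1 ∨ p % 3 = 2 := by omega
    have a2 : p' % 3 = 0 ∨ p' % 3 = 1 ∨ p' % 3 = 2 := by omega
    rcases a1 with a1 | a1 <;> rcases a2 with a2 | a2 | a2 <;> omega
  rcases h3 with ⟨b, hb⟩ | ⟨b, hb⟩ | ⟨b, hb⟩
  · have := (h p b c q' (by rw [hb] at hd; linarith)).1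
    rw [hb]; exact this
  · have e1 : p' = p + 3 * b := by linarith
    have := (h p b c (q' - 3 * c) (by rw [e1] at hd; linarith)).2.1
    rw [e1, this]
    congr 1
    ring
  · have e1 : p' = 3 * b - p := by linarith
    have := (h p b c (q' + 3 * c) (by rw [e1] at hd; linarith)).2.2
    rw [e1, this]
    congr 1
    ring

/-- all edges -/
private lemma edge (hK : ∀ p q : ℤ, K (-p) (-q) = K p q) (h : Hyp K) {p q p' q' : ℤ}
    (hd : p * q' - q * p' = 1) : K p q = K p' q' := by
  by_cases h1 : (3 : ℤ) ∣ q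
  · exact edge_one h hd h1
  by_cases h2 : (3 : ℤ) ∣ q'
  · rw [← hK p q]
    exact (edge_one h (by linarith) h2).symm
  have h3 : (3 : ℤ) ∣ q + q' ∨ (3 : ℤ) ∣ q - q' := by
    have a1 : q % 3 = 1 ∨ q % 3 = 2 := by omega
    have a2 : q' % 3 = 1 ∨ q' % 3 = 2 := by omega
    rcases a1 with a1 | a1 <;> rcases a2 with a2 | a2 <;> omega
  rcases h3 with h3 | h3
  · have e1 : K (p + p') (q + q') = K p' q' := edge_one h (by linarith) h3
    have e2 : K (p + p') (q + q') = K (-p) (-q) := edge_one h (by linarith) h3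
    rw [← e1, e2, hK]
  · have e1 : K (p - p') (q - q') = K p q := edge_one h (by linarith) h3
    have e2 : K (p - p') (q - q') = K p' q' := edge_one h (by linarith) h3
    rw [← e1, e2]

end

theorem hFarp : Farp := by
  intro K hK h
  have key : ∀ n : ℕ, ∀ p q : ℤ, q.natAbs = n → IsCoprime p q → K p q = K 1 0 := by
    intro n
    induction n using Nat.strong_induction_on with
    | _ n ih =>
      intro p q hn hc
      rcases eq_or_ne q 0 with rfl | hq
      · have hu : IsUnit p := isCoprime_zero_right.1 hc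
        rcases Int.isUnit_iff.1 hu with rfl | rfl
        · rfl
        · have := hK 1 0
          rwa [neg_zero] at this
      · obtain ⟨u, v, huv⟩ := hc
        have h1 := Int.mul_ediv_add_emod u q
        have h2 := Int.emod_nonneg u hq
        have h3 := Int.emod_lt_abs u hq
        have hd : p * (u % q) - q * (-(v + (u / q) * p)) = 1 := by
          have : u % q = u - q * (u / q) := by linarith
          rw [this]
          linarith
        rw [edge hK h hd]
        refine ih (u % q).natAbs ?_ _ _ rfl ?_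
        · have : |q| = (q.natAbs : ℤ) := Int.abs_eq_natAbs q
          omega
        · exact ⟨-q, p, by linarith⟩
  intro p q hc
  exact key _ p q rfl hc

end Pool.Agent.Helper36.T3
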