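import Pool.Agent.Helper28.T3.StC

/-!
# Project T3, module DCNq: the number of last coefficients, general modulus
-/

set_option autoImplicit false

open MeasureTheory

namespace Pool.Agent.Helper36.T3

open Pool.Agent.Helper28.T3

private lemma ident (a b c d : ℤ) :
    cF a b c d ^ 2 + a ^ 2 * cD a b c d = 4 * cA a b c ^ 3 := by
  unfold cF cD cA cB
  ring

/-- counting integers in one residue class -/
private lemma count (q : ℕ) (hq : 1 ≤ q) (d0 : ℤ) (F : Finset ℤ) (hF : ∀ d ∈ F, d % (q : ℤ) = d0)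
    (L : ℝ) (hL : 0 ≤ L) (h : ∀ d ∈ F, ∀ e ∈ F, (d : ℝ) - e ≤ L) :
    (F.card : ℝ) ≤ L / q + 1 := by
  have hq0 : (0 : ℝ) < q := by exact_mod_cast hq
  rcases F.eq_empty_or_nonempty with rfl | hne
  · have : 0 ≤ L / q := by positivity
    simp only [Finset.card_empty, Nat.cast_zero]
    linarith
  set u := F.max' hne with hu
  set l := F.min' hne with hl
  have hum : u ∈ F := F.max'_mem hne
  have hlm : l ∈ F := F.min'_mem hne
  have hqz : (0 : ℤ) < q := by exact_mod_cast hq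
  have hinj : Set.InjOn (fun d : ℤ => d / (q : ℤ)) (F : Set ℤ) := by
    intro x hx y hy hxy
    have h1 := hF x hx
    have h2 := hF y hy
    have h3 := Int.mul_ediv_add_emod x q
    have h4 := Int.mul_ediv_add_emod y q
    have h5 : x / (q : ℤ) = y / (q : ℤ) := hxy
    rw [h1, h5] at h3
    rw [h2] at h4
    rw [← h3, h4]
  have hcard : F.card ≤ (Finset.Icc (l / (q : ℤ)) (u / (q : ℤ))).card := by
    refine Finset.card_le_card_of_injOn (fun d : ℤ => d / (q : ℤ)) (fun d hd => ?_) hinj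
    have hd' : d ∈ F := hd
    have a1 : l / (q : ℤ) ≤ d / (q : ℤ) := Int.ediv_le_ediv hqz (F.min'_le d hd')
    have a2 : d / (q : ℤ) ≤ u / (q : ℤ) := Int.ediv_le_ediv hqz (F.le_max' d hd')
    simpa using And.intro a1 a2
  have hlu : l ≤ u := F.min'_le u hum
  have hdlu : l / (q : ℤ) ≤ u / (q : ℤ) := Int.ediv_le_ediv hqz hlu
  rw [Int.card_Icc] at hcard
  have hc2 : (F.card : ℤ) ≤ u / (q : ℤ) + 1 - l / (q : ℤ) := by
    have : ((u / (q : ℤ) + 1 - l / (q : ℤ)).toNat : ℤ) = u / (q : ℤ) + 1 - l / (q : ℤ) :=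
      Int.toNat_of_nonneg (by linarith)
    rw [← this]
    exact_mod_cast hcard
  have h3 := Int.mul_ediv_add_emod u q
  have h4 := Int.mul_ediv_add_emod l q
  rw [hF u hum] at h3
  rw [hF l hlm] at h4
  have h5 : (q : ℤ) * ((F.card : ℤ) - 1) ≤ u - l := by
    have : (q : ℤ) * ((F.card : ℤ) - 1) ≤ (q : ℤ) * (u / (q : ℤ) - l / (q : ℤ)) :=
      mul_le_mul_of_nonneg_left (by linarith) hqz.le
    linarith
  have h6 : (q : ℝ) * ((F.card : ℝ) - 1) ≤ (u : ℝ) - l := by exact_mod_cast h5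
  have h7 := h u hum l hlm
  rw [← sub_le_iff_le_add, le_div_iff₀ hq0]
  linarith

theorem hDCNq : StDCNq := by
  intro q hq X a b c d0 F hF
  have hq0 : (0 : ℝ) < q := by exact_mod_cast hq
  have hW : 0 ≤ Wf X a (cA a b c) := le_max_left _ _
  rcases F.eq_empty_or_nonempty with rfl | ⟨d1, hd1⟩
  · have : 0 ≤ Wf X a (cA a b c) / (q * (a : ℝ) ^ 2) := by positivity
    simp only [Finset.card_empty, Nat.cast_zero]
    linarith
  have ha : 1 ≤ a := (hF d1 hd1).2.1.1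
  have ha0 : (0 : ℝ) < a := by exact_mod_cast ha
  have key : ∀ d ∈ F, ∀ e ∈ F, (d : ℝ) - e ≤ Wf X a (cA a b c) / (a : ℝ) ^ 2 := by
    intro d hd e he
    obtain ⟨-, ⟨-, -, -, -, hm3, -, hy⟩, -⟩ := hF d hd
    obtain ⟨-, ⟨-, -, -, -, -, -, hy'⟩, hX'⟩ := hF e he
    have i1 := ident a b c d
    have i2 := ident a b c e
    have i1r : ((cF a b c d : ℤ) : ℝ) ^ 2 + (a : ℝ) ^ 2 * ((cD a b c d : ℤ) : ℝ)
        = 4 * ((cA a b c : ℤ) : ℝ) ^ 3 := by exact_mod_cast i1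
    have i2r : ((cF a b c e : ℤ) : ℝ) ^ 2 + (a : ℝ) ^ 2 * ((cD a b c e : ℤ) : ℝ)
        = 4 * ((cA a b c : ℤ) : ℝ) ^ 3 := by exact_mod_cast i2
    have hm3r : 3 * ((cA a b c : ℤ) : ℝ) ^ 2 ≤ ((cD a b c d : ℤ) : ℝ) := by exact_mod_cast hm3
    have hyr : (0 : ℝ) ≤ ((cF a b c e : ℤ) : ℝ) := by exact_mod_cast hy'
    have ha2 : (0 : ℝ) ≤ (a : ℝ) ^ 2 := sq_nonneg _
    have u1 : ((cF a b c d : ℤ) : ℝ) ≤ Real.sqrt (4 * ((cA a b c : ℤ) : ℝ) ^ 3
        - 3 * (a : ℝ) ^ 2 * ((cA a b c : ℤ) : ℝ) ^ 2) := by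
      refine (le_abs_self _).trans (Real.abs_le_sqrt ?_)
      have := mul_le_mul_of_nonneg_left hm3r ha2
      nlinarith
    have u2 : Real.sqrt (4 * ((cA a b c : ℤ) : ℝ) ^ 3 - (a : ℝ) ^ 2 * X)
        ≤ ((cF a b c e : ℤ) : ℝ) := by
      refine Real.sqrt_le_iff.2 ⟨hyr, ?_⟩
      have := mul_le_mul_of_nonneg_left hX' ha2
      linarith
    have u3 : ((cF a b c d : ℤ) : ℝ) - ((cF a b c e : ℤ) : ℝ) = (a : ℝ) ^ 2 * ((d : ℝ) - e) := by
      have : cF a b c d - cF a b c e = a ^ 2 * (d - e) := by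
        unfold cF
        ring
      exact_mod_cast this
    have u4 : ((cF a b c d : ℤ) : ℝ) - ((cF a b c e : ℤ) : ℝ) ≤ Wf X a (cA a b c) := by
      refine le_trans ?_ (le_max_right _ _)
      linarith
    rw [le_div_iff₀ (by positivity)]
    linarith
  have := count q hq d0 F (fun d hd => (hF d hd).1) _ (by positivity) key
  rwa [div_div, mul_comm ((a : ℝ) ^ 2) (q : ℝ)] at this

end Pool.Agent.Helper36.T3
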