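import Pool.Agent.Helper28.T3.StA

/-!
# Project T3, module DSC: the discriminant
-/

set_option autoImplicit false

open scoped NumberField

namespace Pool.Agent.Helper36.T3

open Pool.Agent.Helper28.T3

private lemma trace_om {D : ℕ} {K : Type} [Field K] [NumberField K] (h : QF D K) :
    Algebra.trace ℤ (𝓞 K) (h.b 1) = 1 := by
  rw [Algebra.trace_eq_matrix_trace h.b, Matrix.trace_fin_two,
    Algebra.leftMulMatrix_eq_repr_mul, Algebra.leftMulMatrix_eq_repr_mul, h.hb0, mul_one, h.hb1]
  have he : (h.e : 𝓞 K) = h.e • h.b 0 := by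
    rw [h.hb0, zsmul_eq_mul, mul_one]
  rw [he, map_sub, map_zsmul, Finsupp.sub_apply, Finsupp.smul_apply, h.b.repr_self, h.b.repr_self]
  simp

theorem hDSC : StDSC := by
  intro D K _ _ h
  have t0 : Algebra.trace ℤ (𝓞 K) (1 : 𝓞 K) = 2 := by
    have := Algebra.trace_algebraMap_of_basis h.b (1 : ℤ)
    simpa using this
  have t1 := trace_om h
  have t2 : Algebra.trace ℤ (𝓞 K) (h.b 1 * h.b 1) = 1 - 2 * h.e := by
    have he : (h.e : 𝓞 K) = h.e • (1 : 𝓞 K) := by rw [zsmul_eq_mul, mul_one]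
    rw [h.hb1, he, map_sub, map_zsmul, t0, t1, smul_eq_mul]
    ring
  rw [← NumberField.discr_eq_discr K h.b, Algebra.discr_def, Matrix.det_fin_two]
  simp only [Algebra.traceMatrix_apply, Algebra.traceForm_apply, h.hb0, mul_one, one_mul, t0, t1, t2]
  have := h.he
  linarith

end Pool.Agent.Helper36.T3
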